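import Pool.Agent.TBP.StmtsA

set_option autoImplicit false

/-!
# Squad TBP, row PBM
-/

namespace Pool.Agent.TBP.H31

open Finset Pool.Agent.TBP

theorem lw_succ {J j : ℕ} (h : j < J) : lw J j = lw J (j + 1) ^ 2 := by
  unfold lw
  have e : J - j = (J - (j + 1)) + 1 := by omega
  rw [e, ← pow_mul, pow_succ]
  congr 1
  ring

theorem two_le_lw {J j : ℕ} (h : j < J) : 2 ≤ lw J (j + 1) := by
  unfold lw
  have h1 : 1 ≤ J * 2 ^ (J - (j + 1)) := by
    have h2 : 1 ≤ 2 ^ (J - (j + 1)) := Nat.one_le_two_pow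
    exact Nat.one_le_iff_ne_zero.2 (Nat.mul_ne_zero (by omega) (by omega))
  calc 2 = 2 ^ 1 := (pow_one 2).symm
    _ ≤ 2 ^ (J * 2 ^ (J - (j + 1))) := Nat.pow_le_pow_right (by norm_num) h1

theorem pbm (h : MerStmt) : PbmStmt := by
  obtain ⟨M, hM, hm⟩ := h
  refine ⟨Real.log 2 + M, add_nonneg (Real.log_nonneg (by norm_num)) hM, fun J j hj => ?_⟩
  have hw := two_le_lw hj
  have hx := lw_succ hj
  have hwx : lw J (j + 1) ≤ lw J j := by
    rw [hx]
    nlinarith
  have h1 := hm (lw J (j + 1)) (lw J j) hw hwx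
  have h2 : Real.log (lw J j : ℝ) / Real.log (lw J (j + 1) : ℝ) = 2 := by
    have h3 : (lw J j : ℝ) = (lw J (j + 1) : ℝ) ^ 2 := by
      rw [hx]
      push_cast
      ring
    have h4 : 0 < Real.log (lw J (j + 1) : ℝ) := by
      apply Real.log_pos
      have : (2 : ℝ) ≤ (lw J (j + 1) : ℝ) := by exact_mod_cast hw
      linarith
    rw [h3, Real.log_pow]
    field_simp
    norm_num
  rw [h2] at h1
  exact h1

end Pool.Agent.TBP.H31
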